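import Pool.Agent.Helper77.K3.Defs

/-!
# Coordinates of affine automorphisms of `ℝ³`
-/

set_option autoImplicit false

open Set Filter Topology

namespace Pool.Agent.Helper33.K3

open Pool.Agent.Helper77.K3

lemma sum_e (x : E) : x = x 0 • e 0 + x 1 • e 1 + x 2 • e 2 := by
  ext i
  fin_cases i <;> simp [e]

lemma linear_eq (γ : Aff3) (x : E) (i : Fin 3) :
    γ.linear x i = lin γ i 0 * x 0 + lin γ i 1 * x 1 + lin γ i 2 * x 2 := by
  conv_lhs => rw [sum_e x]
  rw [map_add, map_add, map_smul, map_smul, map_smul]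
  simp only [Pi.add_apply, Pi.smul_apply, smul_eq_mul]
  unfold lin
  ring

lemma apply_eq (γ : Aff3) (x : E) : γ x = γ.linear x + γ 0 := by
  have h := γ.map_vadd 0 x
  rw [vadd_eq_add, vadd_eq_add, add_zero] at h
  exact h

lemma apply_coord (γ : Aff3) (x : E) (i : Fin 3) :
    γ x i = lin γ i 0 * x 0 + lin γ i 1 * x 1 + lin γ i 2 * x 2 + tr γ i := by
  rw [apply_eq, Pi.add_apply, linear_eq]
  rfl

lemma lin_mul (γ δ : Aff3) (i j : Fin 3) :
    lin (γ * δ) i j = lin γ i 0 * lin δ 0 j + lin γ i 1 * lin δ 1 j + lin γ i 2 * lin δ 2 j :=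
  linear_eq γ (δ.linear (e j)) i

lemma tr_mul (γ δ : Aff3) (i : Fin 3) :
    tr (γ * δ) i = lin γ i 0 * tr δ 0 + lin γ i 1 * tr δ 1 + lin γ i 2 * tr δ 2 + tr γ i :=
  apply_coord γ (δ 0) i

lemma aff_ext (γ δ : Aff3) (h1 : ∀ i j, lin γ i j = lin δ i j) (h2 : ∀ i, tr γ i = tr δ i) : γ = δ := by
  refine AffineEquiv.ext fun x => ?_
  ext i
  rw [apply_coord, apply_coord, h1, h1, h1, h2]

lemma mat_mul (γ δ : Aff3) : mat (γ * δ) = mat γ * mat δ := by
  ext i j
  rw [Matrix.mul_apply, Fin.sum_univ_three]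
  exact lin_mul γ δ i j

lemma mat_one : mat 1 = 1 := by
  ext i j
  show (e j : E) i = (1 : M3) i j
  rw [Matrix.one_apply, e, Pi.single_apply]

lemma mat_inv (γ : Aff3) : mat γ⁻¹ = (mat γ)⁻¹ := by
  refine (Matrix.inv_eq_left_inv ?_).symm
  rw [← mat_mul, inv_mul_cancel, mat_one]

lemma mat_eq (γ : Aff3) : mat γ = LinearMap.toMatrix' (γ.linear : E →ₗ[ℝ] E) := by
  ext i j
  rw [LinearMap.toMatrix'_apply]
  rfl

lemma mat_det (γ : Aff3) : (mat γ).det = LinearMap.det (γ.linear : E →ₗ[ℝ] E) := by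
  rw [mat_eq, LinearMap.det_toMatrix']

lemma linear_mulVec (γ : Aff3) (x : E) : γ.linear x = (mat γ).mulVec x := by
  ext i
  rw [linear_eq, Matrix.mulVec, dotProduct, Fin.sum_univ_three]
  rfl

lemma exists_aff (A : M3) (b : E) (hA : A.det ≠ 0) : ∃ γ : Aff3, mat γ = A ∧ (∀ i, tr γ i = b i) ∧
    ∀ x, γ x = A.mulVec x + b := by
  have hu : IsUnit A.det := isUnit_iff_ne_zero.2 hA
  let L : E ≃ₗ[ℝ] E := A.toLinearEquiv' (A.invertibleOfIsUnitDet hu)
  have hL : ∀ x, L x = A.mulVec x := fun x => Matrix.toLin'_apply A x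
  let γ : Aff3 := L.toAffineEquiv.trans (AffineEquiv.constVAdd ℝ E b)
  have h1 : ∀ x, γ x = A.mulVec x + b := by
    intro x
    show b +ᵥ L x = _
    rw [vadd_eq_add, hL, add_comm]
  have h2 : ∀ x, γ.linear x = A.mulVec x := by
    intro x
    have h3 := apply_eq γ x
    rw [h1, h1, Matrix.mulVec_zero, zero_add] at h3
    exact (add_right_cancel h3).symm
  refine ⟨γ, ?_, fun i => ?_, h1⟩
  · ext i j
    show γ.linear (e j) i = A i j
    rw [h2, e, Matrix.mulVec_single_one]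
    rfl
  · show γ 0 i = b i
    rw [h1, Matrix.mulVec_zero, zero_add]

theorem coord : S_coord :=
  ⟨apply_coord, lin_mul, tr_mul, aff_ext, mat_mul, mat_one, mat_inv, mat_det, linear_mulVec, exists_aff⟩

end Pool.Agent.Helper33.K3
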