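import Pool.Agent.Helper77.K3.DefsII
import Pool.Agent.Helper33.K3.coord

/-!
# Kleinian affine structures in dimension three: assembly of the triangular case
-/

set_option autoImplicit false

open Set Filter Topology Matrix

namespace Pool.Agent.Helper33.K3

open Pool.Agent.Helper77.K3

/-- The diagonal entry of the inverse of a triangular map. -/
theorem lin_inv_two {g : Aff3} (h0 : lin g 2 0 = 0) (h1 : lin g 2 1 = 0) :
    lin g 2 2 * lin g⁻¹ 2 2 = 1 := by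
  have h := lin_mul g g⁻¹ 2 2
  rw [mul_inv_cancel, h0, h1] at h
  have h1' : lin (1 : Aff3) 2 2 = 1 := by
    show ((e 2 : E)) 2 = 1
    simp [e]
  rw [h1'] at h
  linarith

/-- Assembly of `T2`. -/
theorem T2 (hnorm : S_norm) (hdisc : S_T2disc) (hlat : S_T2lat) : S_T2 := by
  rintro D hT h00 ⟨g₀, hg₀, hg₀'⟩
  -- an element with `1 < lin g 2 2`
  obtain ⟨g, hg, hgt⟩ : ∃ g ∈ D.Γ, 1 < lin g 2 2 := by
    rcases lt_or_gt_of_ne hg₀' with hlt | hgt
    · refine ⟨g₀⁻¹, D.Γ.inv_mem hg₀, ?_⟩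
      obtain ⟨-, h20, h21, -, -, h22, -⟩ := hT g₀ hg₀
      have h := lin_inv_two h20 h21
      by_contra hle
      push Not at hle
      nlinarith
    · exact ⟨g₀, hg₀, hgt⟩
  obtain ⟨φ, D', hT', hφ, hφ1, hmem, hΩ, hconj, h01, h12, h02, htr⟩ := hnorm D g hT hg
  obtain ⟨-, -, -, hp0, hp1, hp2, hdet⟩ := hT g hg
  have hg00 : lin g 0 0 = 1 := h00 g hg
  have hg11 : lin g 1 1 * lin g 2 2 = 1 := by rw [hg00, one_mul] at hdet; exact hdet
  have hg11' : lin g 1 1 < 1 := by nlinarith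
  have ha : lin (φ * g * φ⁻¹) 0 1 = 0 := h01 (by rw [hg00]; exact hg11'.ne')
  have hb : lin (φ * g * φ⁻¹) 1 2 = 0 := h12 (by linarith : lin g 1 1 < lin g 2 2).ne
  have hc : lin (φ * g * φ⁻¹) 0 2 = 0 := h02 (by rw [hg00]; exact hgt.ne)
  have hd : tr (φ * g * φ⁻¹) 1 = 0 := htr 1 hg11'.ne
  have he : tr (φ * g * φ⁻¹) 2 = 0 := htr 2 hgt.ne'
  obtain ⟨hg', hgd⟩ := hconj g hg
  have h00' : ∀ γ ∈ D'.Γ, lin γ 0 0 = 1 := by
    intro γ hγ
    have h1 := (hmem γ).1 hγ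
    have h2 := (hconj _ h1).2 0
    have h3 : φ * (φ⁻¹ * γ * φ) * φ⁻¹ = γ := by group
    rw [h3] at h2
    rw [h2]
    exact h00 _ h1
  have hgt' : 1 < lin (φ * g * φ⁻¹) 2 2 := by rw [hgd 2]; exact hgt
  have hU : D'.Ω = univ := by
    by_contra hne
    obtain ⟨hK, hx, h12', hτ⟩ := hdisc D' _ hT' h00' hg' hgt' ha hc hb hd he hne
    exact hne (hlat D' _ hT' h00' hg' hgt' ha hc hb hd he hK hx h12' hτ)
  rw [hΩ] at hU
  rw [eq_univ_iff_forall]
  intro x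
  have hx : φ x ∈ φ '' D.Ω := by rw [hU]; exact mem_univ _
  obtain ⟨y, hy, hyx⟩ := hx
  rwa [← φ.injective hyx]

/-- Assembly of the triangular case. -/
theorem T (h0 : S_T0) (h1a : S_T1a) (h1b : S_T1b) (h2 : S_T2) (h3a : S_T3a) (h3b : S_T3b)
    (hi : S_b2i) (hii : S_b2ii) (hiii : S_b2iii) (hiv : S_b2iv) : S_T := by
  intro D hT
  by_cases h22 : ∀ γ ∈ D.Γ, lin γ 2 2 = 1
  · by_cases h00 : ∀ γ ∈ D.Γ, lin γ 0 0 = 1
    · exact h0 D hT fun γ hγ => ⟨h00 γ hγ, h22 γ hγ⟩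
    · push Not at h00
      refine h1b D hT h22 (fun γ hγ htr => ?_) h00
      by_contra hne
      exact h1a D γ hT h22 hγ htr hne
  · push Not at h22
    obtain ⟨g, hg, hg2⟩ := h22
    have hA : ∀ γ ∈ D.Γ, lin γ 2 2 = 1 → lin γ 0 0 = 1 := by
      intro γ hγ h22
      by_contra hne
      exact h3a D γ g hT hγ hg h22 hne hg2
    have hB : ∀ h ∈ D.Γ, Real.log (lin g 0 0) * Real.log (lin h 2 2) =
        Real.log (lin g 2 2) * Real.log (lin h 0 0) := by
      intro h hh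
      by_contra hne
      exact h3b D g h hT hA hg hh hne
    have hlog : Real.log (lin g 2 2) ≠ 0 := by
      obtain ⟨-, -, -, -, -, hp2, -⟩ := hT g hg
      exact Real.log_ne_zero_of_pos_of_ne_one hp2 hg2
    have hP : D.Prp (Real.log (lin g 0 0) / Real.log (lin g 2 2)) := by
      refine ⟨hT, fun γ hγ => ?_⟩
      obtain ⟨-, -, -, hp0, -, hp2, -⟩ := hT γ hγ
      have h := hB γ hγ
      rw [Real.rpow_def_of_pos hp2, ← Real.exp_log hp0]
      congr 1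
      field_simp
      linarith
    set a₀ : ℝ := Real.log (lin g 0 0) / Real.log (lin g 2 2) with ha₀
    clear_value a₀
    rcases lt_trichotomy a₀ 0 with hneg | hz | hpos
    · rcases lt_trichotomy a₀ (-1) with hlt | heq | hgt
      · exact hiii D a₀ hP hlt ⟨g, hg, hg2⟩
      · rw [heq] at hP
        exact hiv D hP ⟨g, hg, hg2⟩
      · exact hi D a₀ hP hgt hneg ⟨g, hg, hg2⟩
    · rw [hz] at hP
      refine h2 D hT (fun γ hγ => ?_) ⟨g, hg, hg2⟩
      rw [hP.2 γ hγ, Real.rpow_zero]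
    · exact hii D a₀ hP hpos ⟨g, hg, hg2⟩

end Pool.Agent.Helper33.K3
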