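import Pool.Agent.Helper33.K3.dichB

/-!
# The dichotomy, part C: the invariant form
-/

set_option autoImplicit false
set_option linter.unusedVariables false

open Set Filter Topology Matrix

namespace Pool.Agent.Helper33.K3

open Pool.Agent.Helper77.K3

section cover

/-- the representation `(A, B) ↦ (f A, B f⁻¹)` -/
def pairRep {G : Type} [Group G] (ρ : G →* SL3) : G →* ((M3 × M3) →ₗ[ℝ] (M3 × M3)) where
  toFun f :=
    { toFun := fun p => ((ρ f : M3) * p.1, p.2 * (ρ f⁻¹ : M3))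
      map_add' := fun p q => by
        rw [Prod.fst_add, Prod.snd_add, mul_add, add_mul]
        rfl
      map_smul' := fun c p => by
        rw [Prod.smul_fst, Prod.smul_snd, mul_smul_comm, smul_mul_assoc]
        rfl }
  map_one' := by
    refine LinearMap.ext fun p => ?_
    show ((ρ 1 : M3) * p.1, p.2 * (ρ 1⁻¹ : M3)) = p
    rw [inv_one, map_one, Matrix.SpecialLinearGroup.coe_one, one_mul, mul_one]
  map_mul' f g := by
    refine LinearMap.ext fun p => ?_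
    show ((ρ (f * g) : M3) * p.1, p.2 * (ρ (f * g)⁻¹ : M3)) =
      ((ρ f : M3) * ((ρ g : M3) * p.1), (p.2 * (ρ g⁻¹ : M3)) * (ρ f⁻¹ : M3))
    rw [_root_.mul_inv_rev, map_mul, map_mul, Matrix.SpecialLinearGroup.coe_mul, Matrix.SpecialLinearGroup.coe_mul,
      mul_assoc, mul_assoc]

lemma pairRep_one {G : Type} [Group G] (ρ : G →* SL3) (f : G) :
    pairRep ρ f (1, 1) = ((ρ f : M3), (ρ f⁻¹ : M3)) := by
  show ((ρ f : M3) * 1, 1 * (ρ f⁻¹ : M3)) = _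
  rw [mul_one, one_mul]

/-- `(A, B) ↦ a φ₁ (A x) + b φ₂ (B x)` -/
def pairFun (a b : ℝ) (φ₁ φ₂ x : E) : (M3 × M3) →ₗ[ℝ] ℝ where
  toFun p := a * (φ₁ ⬝ᵥ (p.1 *ᵥ x)) + b * (φ₂ ⬝ᵥ (p.2 *ᵥ x))
  map_add' p q := by
    rw [Prod.fst_add, Prod.snd_add, add_mulVec, add_mulVec, dotProduct_add, dotProduct_add]
    ring
  map_smul' c p := by
    rw [Prod.smul_fst, Prod.smul_snd, smul_mulVec, smul_mulVec, dotProduct_smul, dotProduct_smul]
    simp only [smul_eq_mul, RingHom.id_apply]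
    ring

/-- an orbit of a subgroup of finite index spans -/
lemma span_orbit {G : Type} [Group G] {ρ : G →* SL3} (hirr : StrIrr (linRep ρ)) {G' : Subgroup G}
    (hG' : G'.FiniteIndex) {x : E} (hx : x ≠ 0) :
    Submodule.span ℝ {y : E | ∃ f ∈ G', y = (ρ f : M3) *ᵥ x} = ⊤ := by
  refine (hirr G' hG' _ ?_).resolve_left ?_
  · intro f hf u hu
    induction hu using Submodule.span_induction with
    | mem y hy =>
      obtain ⟨g, hg, rfl⟩ := hy
      refine Submodule.subset_span ⟨f * g, G'.mul_mem hf hg, ?_⟩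
      rw [linRep_apply, mulVec_mulVec, map_mul, Matrix.SpecialLinearGroup.coe_mul]
    | zero => rw [map_zero]; exact Submodule.zero_mem _
    | add y z _ _ hy hz => rw [map_add]; exact Submodule.add_mem _ hy hz
    | smul c y _ hy => rw [map_smul]; exact Submodule.smul_mem _ _ hy
  · intro h
    apply hx
    have h1 : x ∈ Submodule.span ℝ {y : E | ∃ f ∈ G', y = (ρ f : M3) *ᵥ x} := by
      refine Submodule.subset_span ⟨1, G'.one_mem, ?_⟩
      rw [map_one, Matrix.SpecialLinearGroup.coe_one, one_mulVec]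
    rw [h, Submodule.mem_bot] at h1
    exact h1

/-- a functional which vanishes on an orbit is zero -/
lemma eq_zero_of_orbit {G : Type} [Group G] {ρ : G →* SL3} (hirr : StrIrr (linRep ρ)) {G' : Subgroup G}
    (hG' : G'.FiniteIndex) {x φ : E} (hx : x ≠ 0) (h : ∀ f ∈ G', φ ⬝ᵥ ((ρ f : M3) *ᵥ x) = 0) : φ = 0 := by
  by_contra hφ
  apply ell_ne hφ
  have h1 : LinearMap.ker (ell φ) = ⊤ := by
    rw [eq_top_iff, ← span_orbit hirr hG' hx, Submodule.span_le]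
    rintro y ⟨f, hf, rfl⟩
    exact h f hf
  exact LinearMap.ker_eq_top.1 h1

/-- (0.3) (B): the relation on a subgroup of finite index -/
lemma exists_sign (hcov : S_cover) {G : Type} [Group G] (ρ : G →* SL3) (hirr : StrIrr (linRep ρ)) {x φ₁ φ₂ : E}
    (hx : x ≠ 0) (h1 : φ₁ ≠ 0) (h2 : φ₂ ≠ 0)
    (halt : ∀ f : G, φ₁ ⬝ᵥ ((ρ f : M3) *ᵥ x) = 0 ∨ φ₂ ⬝ᵥ ((ρ f⁻¹ : M3) *ᵥ x) = 0 ∨
      φ₁ ⬝ᵥ ((ρ f : M3) *ᵥ x) = φ₂ ⬝ᵥ ((ρ f⁻¹ : M3) *ᵥ x) ∨
      φ₁ ⬝ᵥ ((ρ f : M3) *ᵥ x) = -(φ₂ ⬝ᵥ ((ρ f⁻¹ : M3) *ᵥ x))) :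
    ∃ (G' : Subgroup G) (s : ℝ), G'.FiniteIndex ∧
      ∀ f ∈ G', φ₁ ⬝ᵥ ((ρ f : M3) *ᵥ x) = s * (φ₂ ⬝ᵥ ((ρ f⁻¹ : M3) *ᵥ x)) := by
  let W : Fin 4 → Submodule ℝ (M3 × M3) := ![LinearMap.ker (pairFun 1 0 φ₁ φ₂ x), LinearMap.ker (pairFun 0 1 φ₁ φ₂ x),
    LinearMap.ker (pairFun 1 (-1) φ₁ φ₂ x), LinearMap.ker (pairFun 1 1 φ₁ φ₂ x)]
  obtain ⟨i, G', hG', hi⟩ := hcov G (M3 × M3) (pairRep ρ) (1, 1) (Fin 4) W (by
    intro f
    rw [pairRep_one]
    rcases halt f with h | h | h | h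
    · refine ⟨0, ?_⟩
      show 1 * (φ₁ ⬝ᵥ ((ρ f : M3) *ᵥ x)) + 0 * (φ₂ ⬝ᵥ ((ρ f⁻¹ : M3) *ᵥ x)) = 0
      rw [h]; ring
    · refine ⟨1, ?_⟩
      show 0 * (φ₁ ⬝ᵥ ((ρ f : M3) *ᵥ x)) + 1 * (φ₂ ⬝ᵥ ((ρ f⁻¹ : M3) *ᵥ x)) = 0
      rw [h]; ring
    · refine ⟨2, ?_⟩
      show 1 * (φ₁ ⬝ᵥ ((ρ f : M3) *ᵥ x)) + (-1) * (φ₂ ⬝ᵥ ((ρ f⁻¹ : M3) *ᵥ x)) = 0
      rw [h]; ring
    · refine ⟨3, ?_⟩
      show 1 * (φ₁ ⬝ᵥ ((ρ f : M3) *ᵥ x)) + 1 * (φ₂ ⬝ᵥ ((ρ f⁻¹ : M3) *ᵥ x)) = 0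
      rw [h]; ring)
  have hi' : ∀ f ∈ G', ((ρ f : M3), (ρ f⁻¹ : M3)) ∈ W i := by
    intro f hf
    rw [← pairRep_one]
    exact hi f hf
  fin_cases i
  · exfalso
    apply h1
    refine eq_zero_of_orbit hirr hG' hx fun f hf => ?_
    have h3 : 1 * (φ₁ ⬝ᵥ ((ρ f : M3) *ᵥ x)) + 0 * (φ₂ ⬝ᵥ ((ρ f⁻¹ : M3) *ᵥ x)) = 0 := hi' f hf
    linarith
  · exfalso
    apply h2
    refine eq_zero_of_orbit hirr hG' hx fun f hf => ?_
    have h3 : 0 * (φ₁ ⬝ᵥ ((ρ f⁻¹ : M3) *ᵥ x)) + 1 * (φ₂ ⬝ᵥ ((ρ f⁻¹⁻¹ : M3) *ᵥ x)) = 0 := hi' f⁻¹ (G'.inv_mem hf)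
    rw [inv_inv] at h3
    linarith
  · refine ⟨G', 1, hG', fun f hf => ?_⟩
    have h3 : 1 * (φ₁ ⬝ᵥ ((ρ f : M3) *ᵥ x)) + (-1) * (φ₂ ⬝ᵥ ((ρ f⁻¹ : M3) *ᵥ x)) = 0 := hi' f hf
    linarith
  · refine ⟨G', -1, hG', fun f hf => ?_⟩
    have h3 : 1 * (φ₁ ⬝ᵥ ((ρ f : M3) *ᵥ x)) + 1 * (φ₂ ⬝ᵥ ((ρ f⁻¹ : M3) *ᵥ x)) = 0 := hi' f hf
    linarith

end cover

section form

/-- a basis in the orbit -/
lemma exists_basis {G : Type} [Group G] {ρ : G →* SL3} (hirr : StrIrr (linRep ρ)) {G' : Subgroup G}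
    (hG' : G'.FiniteIndex) {x : E} (hx : x ≠ 0) :
    ∃ (k : ℕ) (h : Fin k → G) (a : E → Fin k → ℝ), (∀ i, h i ∈ G') ∧
      (∀ u, u = ∑ i, a u i • ((ρ (h i) : M3) *ᵥ x)) ∧ (∀ u v i, a (u + v) i = a u i + a v i) ∧
      (∀ (c : ℝ) u i, a (c • u) i = c * a u i) := by
  have hs := span_orbit hirr hG' hx
  obtain ⟨k, b, hb⟩ : ∃ (k : ℕ) (b : Module.Basis (Fin k) ℝ E), ∀ i, b i ∈ {y : E | ∃ f ∈ G', y = (ρ f : M3) *ᵥ x} := by
    let B := Module.Basis.ofSpan hs.ge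
    have hfin : Finite _ := Module.Finite.finite_basis B
    let B' := B.reindex (Finite.equivFin _)
    refine ⟨_, B', fun i => ?_⟩
    rw [Module.Basis.reindex_apply]
    exact Module.Basis.ofSpan_subset hs.ge ⟨_, rfl⟩
  choose h hh hb' using hb
  refine ⟨k, h, fun u i => b.repr u i, hh, fun u => ?_, fun u v i => ?_, fun c u i => ?_⟩
  · conv_lhs => rw [← b.sum_repr u]
    exact Finset.sum_congr rfl fun i _ => by rw [hb']
  · show (b.repr (u + v)) i = (b.repr u) i + (b.repr v) i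
    rw [map_add]
    rfl
  · show (b.repr (c • u)) i = c * (b.repr u) i
    rw [map_smul]
    rfl

/-- the invariant form -/
lemma exists_form {G : Type} [Group G] {ρ : G →* SL3} (hirr : StrIrr (linRep ρ)) {G' : Subgroup G}
    (hG' : G'.FiniteIndex) {x φ₁ φ₂ : E} (hx : x ≠ 0) (h1 : φ₁ ≠ 0) {s : ℝ}
    (hrel : ∀ f ∈ G', φ₁ ⬝ᵥ ((ρ f : M3) *ᵥ x) = s * (φ₂ ⬝ᵥ ((ρ f⁻¹ : M3) *ᵥ x))) :
    ∃ B : M3, B ≠ 0 ∧ ∀ f ∈ G', (ρ f : M3)ᵀ * B * (ρ f : M3) = B := by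
  obtain ⟨k, h, a, hh, ha, hadd, hsmul⟩ := exists_basis hirr hG' hx
  let β : E →ₗ[ℝ] E →ₗ[ℝ] ℝ :=
    { toFun := fun u =>
        { toFun := fun v => ∑ i, a u i * (φ₁ ⬝ᵥ ((ρ (h i)⁻¹ : M3) *ᵥ v))
          map_add' := fun v w => by
            rw [← Finset.sum_add_distrib]
            refine Finset.sum_congr rfl fun i _ => ?_
            rw [mulVec_add, dotProduct_add]
            ring
          map_smul' := fun c v => by
            rw [RingHom.id_apply, smul_eq_mul, Finset.mul_sum]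
            refine Finset.sum_congr rfl fun i _ => ?_
            rw [mulVec_smul, dotProduct_smul, smul_eq_mul]
            ring }
      map_add' := fun u u' => by
        refine LinearMap.ext fun v => ?_
        show ∑ i, a (u + u') i * _ = ∑ i, a u i * _ + ∑ i, a u' i * _
        rw [← Finset.sum_add_distrib]
        refine Finset.sum_congr rfl fun i _ => ?_
        rw [hadd]
        ring
      map_smul' := fun c u => by
        refine LinearMap.ext fun v => ?_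
        show ∑ i, a (c • u) i * _ = c * ∑ i, a u i * _
        rw [Finset.mul_sum]
        refine Finset.sum_congr rfl fun i _ => ?_
        rw [hsmul]
        ring }
  have hβ : ∀ u v, β u v = ∑ i, a u i * (φ₁ ⬝ᵥ ((ρ (h i)⁻¹ : M3) *ᵥ v)) := fun u v => rfl
  have hmul : ∀ (f g : G) (y : E), (ρ f : M3) *ᵥ ((ρ g : M3) *ᵥ y) = (ρ (f * g) : M3) *ᵥ y := by
    intro f g y
    rw [mulVec_mulVec, map_mul, Matrix.SpecialLinearGroup.coe_mul]
  -- values on the orbit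
  have hval : ∀ f ∈ G', ∀ g ∈ G', β ((ρ f : M3) *ᵥ x) ((ρ g : M3) *ᵥ x) = φ₁ ⬝ᵥ ((ρ (f⁻¹ * g) : M3) *ᵥ x) := by
    intro f hf g hg
    rw [hβ]
    have e1 : ∀ i, φ₁ ⬝ᵥ ((ρ (h i)⁻¹ : M3) *ᵥ ((ρ g : M3) *ᵥ x)) =
        s * (φ₂ ⬝ᵥ ((ρ g⁻¹ : M3) *ᵥ ((ρ (h i) : M3) *ᵥ x))) := by
      intro i
      rw [hmul, hmul, hrel _ (G'.mul_mem (G'.inv_mem (hh i)) hg), _root_.mul_inv_rev, inv_inv]
    have e2 : φ₁ ⬝ᵥ ((ρ (f⁻¹ * g) : M3) *ᵥ x) = s * (φ₂ ⬝ᵥ ((ρ g⁻¹ : M3) *ᵥ ((ρ f : M3) *ᵥ x))) := by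
      rw [hmul, hrel _ (G'.mul_mem (G'.inv_mem hf) hg), _root_.mul_inv_rev, inv_inv]
    rw [e2]
    conv_rhs => rw [ha ((ρ f : M3) *ᵥ x)]
    rw [mulVec_sum, dotProduct_sum, Finset.mul_sum]
    refine Finset.sum_congr rfl fun i _ => ?_
    rw [e1, mulVec_smul, dotProduct_smul, smul_eq_mul]
    ring
  have hspan := span_orbit hirr hG' hx
  -- invariance
  have hinv : ∀ g ∈ G', ∀ u v, β ((ρ g : M3) *ᵥ u) ((ρ g : M3) *ᵥ v) = β u v := by
    intro g hg u v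
    have hu : u ∈ Submodule.span ℝ {y : E | ∃ f ∈ G', y = (ρ f : M3) *ᵥ x} := by rw [hspan]; trivial
    have hv : v ∈ Submodule.span ℝ {y : E | ∃ f ∈ G', y = (ρ f : M3) *ᵥ x} := by rw [hspan]; trivial
    induction hu using Submodule.span_induction with
    | mem y hy =>
      obtain ⟨f, hf, rfl⟩ := hy
      induction hv using Submodule.span_induction with
      | mem z hz =>
        obtain ⟨f', hf', rfl⟩ := hz
        rw [hmul, hmul, hval _ (G'.mul_mem hg hf) _ (G'.mul_mem hg hf'), hval _ hf _ hf']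
        have e : (g * f)⁻¹ * (g * f') = f⁻¹ * f' := by group
        rw [e]
      | zero => rw [mulVec_zero, map_zero, map_zero]
      | add z w _ _ hz hw => rw [mulVec_add, map_add, map_add, hz, hw]
      | smul c z _ hz => rw [mulVec_smul, map_smul, map_smul, hz]
    | zero => rw [mulVec_zero, map_zero]; rfl
    | add y z _ _ hy hz => rw [mulVec_add, map_add, map_add, LinearMap.add_apply, LinearMap.add_apply, hy, hz]
    | smul c y _ hy => rw [mulVec_smul, map_smul, map_smul, LinearMap.smul_apply, LinearMap.smul_apply, hy]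
  -- the matrix
  let B : M3 := Matrix.of fun i j => β (Pi.single i 1) (Pi.single j 1)
  have hBβ : ∀ u v, u ⬝ᵥ (B *ᵥ v) = β u v := by
    intro u v
    have hu : u = ∑ i, u i • (Pi.single i 1 : E) := by
      ext j
      rw [Finset.sum_apply]
      simp [Pi.single_apply]
    have hv : v = ∑ i, v i • (Pi.single i 1 : E) := by
      ext j
      rw [Finset.sum_apply]
      simp [Pi.single_apply]
    conv_rhs => rw [hu]
    rw [map_sum β, LinearMap.sum_apply]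
    refine Finset.sum_congr rfl fun i _ => ?_
    rw [map_smul, LinearMap.smul_apply, smul_eq_mul, Matrix.mulVec, dotProduct]
    congr 1
    conv_rhs => rw [hv]
    rw [map_sum]
    refine Finset.sum_congr rfl fun j _ => ?_
    rw [map_smul, smul_eq_mul, mul_comm]
    rfl
  refine ⟨B, ?_, fun f hf => ?_⟩
  · intro h0
    apply h1
    refine eq_zero_of_orbit hirr hG' hx fun f hf => ?_
    have h2 := hval 1 G'.one_mem f hf
    rw [inv_one, one_mul] at h2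
    rw [← h2, ← hBβ, h0, zero_mulVec, dotProduct_zero]
  · ext i j
    have h2 : ∀ A : M3, A i j = (Pi.single i 1 : E) ⬝ᵥ (A *ᵥ (Pi.single j 1)) := by
      intro A
      rw [single_one_dotProduct, mulVec_single_one]
      rfl
    rw [h2 ((ρ f : M3)ᵀ * B * (ρ f : M3)), h2 B, hBβ, ← hinv f hf, ← hBβ, ← mulVec_mulVec, ← mulVec_mulVec, dotProduct_mulVec, vecMul_transpose]

end form

section sym
variable {G : Type} [Group G] {ρ : G →* SL3} {G' : Subgroup G}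

/-- the kernel of an invariant form is trivial or everything -/
lemma ker_form (hirr : StrIrr (linRep ρ)) (hG' : G'.FiniteIndex) {B : M3}
    (hB : ∀ f ∈ G', (ρ f : M3)ᵀ * B * (ρ f : M3) = B) : B = 0 ∨ B.det ≠ 0 := by
  have h1 := hirr G' hG' (LinearMap.ker (Matrix.toLin' B)) (by
    intro f hf u hu
    rw [LinearMap.mem_ker, Matrix.toLin'_apply] at hu ⊢
    rw [linRep_apply]
    have h2 : (ρ f : M3)ᵀ *ᵥ (B *ᵥ ((ρ f : M3) *ᵥ u)) = 0 := by
      rw [mulVec_mulVec, mulVec_mulVec, hB f hf, hu]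
    have h3 : ((ρ f)⁻¹ : SL3).1ᵀ * (ρ f : M3)ᵀ = 1 := by
      rw [← transpose_mul, coe_mul_inv, transpose_one]
    have h4 := congrArg (fun z => ((ρ f)⁻¹ : SL3).1ᵀ *ᵥ z) h2
    rw [mulVec_mulVec, h3, one_mulVec, mulVec_zero] at h4
    exact h4)
  rcases h1 with h1 | h1
  · right
    intro h0
    obtain ⟨v, hv, hv0⟩ := Matrix.exists_mulVec_eq_zero_iff.2 h0
    have h2 : v ∈ LinearMap.ker (Matrix.toLin' B) := by
      rw [LinearMap.mem_ker, Matrix.toLin'_apply]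
      exact hv0
    rw [h1, Submodule.mem_bot] at h2
    exact hv h2
  · left
    have h2 := LinearMap.ker_eq_top.1 h1
    exact (LinearEquiv.map_eq_zero_iff Matrix.toLin').1 h2

/-- a nonzero invariant form is symmetric and nondegenerate -/
lemma form_symm (hirr : StrIrr (linRep ρ)) (hG' : G'.FiniteIndex) {B : M3}
    (hB : ∀ f ∈ G', (ρ f : M3)ᵀ * B * (ρ f : M3) = B) : Bᵀ = B := by
  have hA : ∀ f ∈ G', (ρ f : M3)ᵀ * (B - Bᵀ) * (ρ f : M3) = B - Bᵀ := by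
    intro f hf
    have h1 := hB f hf
    have h2 := congrArg Matrix.transpose h1
    rw [transpose_mul, transpose_mul, transpose_transpose, ← Matrix.mul_assoc] at h2
    rw [Matrix.mul_sub, Matrix.sub_mul, h1, h2]
  rcases ker_form hirr hG' hA with h | h
  · exact (sub_eq_zero.1 h).symm
  · exfalso
    apply h
    have h1 : (B - Bᵀ)ᵀ = -(B - Bᵀ) := by
      rw [transpose_sub, transpose_transpose, neg_sub]
    have h2 := congrArg Matrix.det h1
    rw [det_transpose, det_neg, Fintype.card_fin] at h2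
    norm_num at h2
    linarith

/-- a group which preserves a positive definite form is bounded -/
lemma bounded_of_pos {B : M3} (hpos : ∀ x : E, x ≠ 0 → 0 < x ⬝ᵥ (B *ᵥ x)) :
    ∃ R : ℝ, ∀ A : M3, Aᵀ * B * A = B → ∀ i j, |A i j| ≤ R := by
  have hc : Continuous fun x : E => x ⬝ᵥ (B *ᵥ x) :=
    Continuous.dotProduct continuous_id (Continuous.matrix_mulVec continuous_const continuous_id)
  have hK : IsCompact (Metric.sphere (0 : E) 1) := isCompact_sphere _ _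
  have hne : (Metric.sphere (0 : E) 1).Nonempty := by
    refine ⟨fun _ => 1, ?_⟩
    rw [mem_sphere_zero_iff_norm, pi_norm_const, norm_one]
  obtain ⟨x₀, hx₀, hmin⟩ := hK.exists_isMinOn hne hc.continuousOn
  set m := x₀ ⬝ᵥ (B *ᵥ x₀) with hm
  have hm0 : 0 < m := by
    refine hpos x₀ ?_
    intro h0
    rw [h0, mem_sphere_zero_iff_norm, norm_zero] at hx₀
    exact zero_ne_one hx₀
  have hlow : ∀ x : E, m * ‖x‖ ^ 2 ≤ x ⬝ᵥ (B *ᵥ x) := by
    intro x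
    by_cases hx : x = 0
    · rw [hx]; simp
    have hn : 0 < ‖x‖ := norm_pos_iff.2 hx
    have h1 : (‖x‖⁻¹ • x) ∈ Metric.sphere (0 : E) 1 := by
      rw [mem_sphere_zero_iff_norm, norm_smul, norm_inv, norm_norm]
      exact inv_mul_cancel₀ hn.ne'
    have h2 := hmin h1
    have h3 : m ≤ (‖x‖⁻¹ • x) ⬝ᵥ (B *ᵥ (‖x‖⁻¹ • x)) := h2
    rw [mulVec_smul, dotProduct_smul, smul_dotProduct, smul_eq_mul, smul_eq_mul] at h3
    have h4 : m * ‖x‖ ^ 2 ≤ (‖x‖⁻¹ * (‖x‖⁻¹ * (x ⬝ᵥ (B *ᵥ x)))) * ‖x‖ ^ 2 :=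
      mul_le_mul_of_nonneg_right h3 (by positivity)
    refine h4.trans (le_of_eq ?_)
    field_simp
  obtain ⟨R, hR⟩ : ∃ R : ℝ, ∀ j : Fin 3, (Pi.single j 1 : E) ⬝ᵥ (B *ᵥ (Pi.single j 1)) ≤ R :=
    ⟨∑ j : Fin 3, |(Pi.single j 1 : E) ⬝ᵥ (B *ᵥ (Pi.single j 1))|, fun j => (le_abs_self _).trans
      (Finset.single_le_sum (f := fun j : Fin 3 => |(Pi.single j 1 : E) ⬝ᵥ (B *ᵥ (Pi.single j 1))|)
        (fun _ _ => abs_nonneg _) (Finset.mem_univ j))⟩
  refine ⟨R / m + 1, fun A hA i j => ?_⟩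
  have h1 : (A *ᵥ (Pi.single j 1)) ⬝ᵥ (B *ᵥ (A *ᵥ (Pi.single j 1))) ≤ R := by
    have h2 : (A *ᵥ (Pi.single j 1)) ⬝ᵥ (B *ᵥ (A *ᵥ (Pi.single j 1))) =
        (Pi.single j 1 : E) ⬝ᵥ ((Aᵀ * B * A) *ᵥ (Pi.single j 1)) := by
      rw [← mulVec_mulVec, ← mulVec_mulVec, dotProduct_mulVec (Pi.single j 1 : E), vecMul_transpose]
    rw [h2, hA]
    exact hR j
  have h3 := (hlow (A *ᵥ (Pi.single j 1))).trans h1
  have h4 : |A i j| ≤ ‖A *ᵥ (Pi.single j 1 : E)‖ := by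
    have h5 := norm_le_pi_norm (A *ᵥ (Pi.single j 1 : E)) i
    rw [mulVec_single_one] at h5 ⊢
    exact h5
  set t := ‖A *ᵥ (Pi.single j 1 : E)‖ with ht
  have ht0 : 0 ≤ t := norm_nonneg _
  have h5 : t ^ 2 ≤ R / m := by
    rw [le_div_iff₀ hm0]
    linarith
  nlinarith

/-- boundedness of a group from a subgroup of finite index -/
lemma bounded_of_index (hG' : G'.FiniteIndex) {R : ℝ} (h : ∀ f ∈ G', ∀ i j, |(ρ f : M3) i j| ≤ R) :
    ∃ R' : ℝ, ∀ f i j, |(ρ f : M3) i j| ≤ R' := by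
  have : Finite (G ⧸ G') := Subgroup.finite_quotient_of_finiteIndex
  have := Fintype.ofFinite (G ⧸ G')
  refine ⟨∑ q : G ⧸ G', 3 * (mn (ρ q.out : M3) * R), fun f i j => ?_⟩
  have hR : 0 ≤ R := (abs_nonneg _).trans (h 1 G'.one_mem 0 0)
  have hmn : ∀ A : M3, 0 ≤ mn A := fun A => norm_nonneg _
  obtain ⟨g, hg⟩ : ∃ g : G, g ∈ G' ∧ f = (QuotientGroup.mk f : G ⧸ G').out * g := by
    obtain ⟨g, hg⟩ := QuotientGroup.mk_out_eq_mul G' f
    refine ⟨g⁻¹, G'.inv_mem g.2, ?_⟩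
    rw [hg]
    group
  have h1 : |(ρ f : M3) i j| ≤ 3 * (mn (ρ (QuotientGroup.mk f : G ⧸ G').out : M3) * R) := by
    have h2 : (ρ f : M3) i j = ∑ k, (ρ (QuotientGroup.mk f : G ⧸ G').out : M3) i k * (ρ g : M3) k j := by
      conv_lhs => rw [hg.2, map_mul, Matrix.SpecialLinearGroup.coe_mul, Matrix.mul_apply]
    rw [h2]
    refine (Finset.abs_sum_le_sum_abs _ _).trans ?_
    have h3 : ∀ k ∈ (Finset.univ : Finset (Fin 3)),
        |(ρ (QuotientGroup.mk f : G ⧸ G').out : M3) i k * (ρ g : M3) k j| ≤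
          mn (ρ (QuotientGroup.mk f : G ⧸ G').out : M3) * R := by
      intro k _
      rw [abs_mul]
      exact mul_le_mul (entry_le _ _ _) (h g hg.1 k j) (abs_nonneg _) (hmn _)
    refine (Finset.sum_le_sum h3).trans ?_
    rw [Finset.sum_const, Finset.card_univ, Fintype.card_fin, nsmul_eq_mul]
    norm_num
  refine h1.trans ?_
  exact Finset.single_le_sum (f := fun q : G ⧸ G' => 3 * (mn (ρ q.out : M3) * R))
    (fun q _ => mul_nonneg (by norm_num) (mul_nonneg (hmn _) hR)) (Finset.mem_univ _)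

/-- a positive semidefinite nondegenerate symmetric form is positive definite -/
lemma pos_of_semi {B : M3} (hs : Bᵀ = B) (hdet : B.det ≠ 0) (h : ∀ x : E, 0 ≤ x ⬝ᵥ (B *ᵥ x)) (x : E) (hx : x ≠ 0) :
    0 < x ⬝ᵥ (B *ᵥ x) := by
  rcases (h x).lt_or_eq with h1 | h1
  · exact h1
  exfalso
  have h2 : B *ᵥ x ≠ 0 := by
    intro h0
    exact hdet (Matrix.exists_mulVec_eq_zero_iff.1 ⟨x, hx, h0⟩)
  -- `y ⬝ B x = 0` for all `y`
  have h3 : ∀ y : E, y ⬝ᵥ (B *ᵥ x) = 0 := by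
    intro y
    have hsym : x ⬝ᵥ (B *ᵥ y) = y ⬝ᵥ (B *ᵥ x) := by
      rw [dotProduct_mulVec, ← mulVec_transpose, hs, dotProduct_comm]
    have h4 : ∀ t : ℝ, 0 ≤ 2 * t * (y ⬝ᵥ (B *ᵥ x)) + t ^ 2 * (y ⬝ᵥ (B *ᵥ y)) := by
      intro t
      have h5 := h (x + t • y)
      rw [mulVec_add, mulVec_smul, add_dotProduct, dotProduct_add, dotProduct_add, smul_dotProduct, smul_dotProduct,
        dotProduct_smul, dotProduct_smul, ← h1, hsym] at h5
      simp only [smul_eq_mul] at h5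
      nlinarith
    have hy := h y
    by_contra hne
    set p := y ⬝ᵥ (B *ᵥ x) with hp
    set q := y ⬝ᵥ (B *ᵥ y) with hq
    have h6 := h4 (-p / (q + 1))
    have hq1 : 0 < q + 1 := by linarith
    have h7 : 2 * (-p / (q + 1)) * p + (-p / (q + 1)) ^ 2 * q = -(p ^ 2) * (q + 2) / (q + 1) ^ 2 := by
      field_simp
      ring
    rw [h7] at h6
    have h8 : 0 < p ^ 2 := by positivity
    have h9 : -(p ^ 2) * (q + 2) / (q + 1) ^ 2 < 0 := by
      apply div_neg_of_neg_of_pos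
      · nlinarith
      · positivity
    linarith
  have h4 := h3 (B *ᵥ x)
  exact h2 (dotProduct_self_eq_zero.1 h4)

end sym

/-- **the dichotomy for strongly irreducible unbounded groups** -/
theorem dich (hpert : S_pert) (hrk : S_rk1) (hgen : S_gen) (hcov : S_cover) : S_dich := by
  intro G _ ρ hirr hunb
  by_cases hno : ∃ f : G, IsSad (ρ f)
  · exact Or.inl hno
  right
  obtain ⟨d, C, x, φ₁, φ₂, hC, hx, h1, h2, l1, l2⟩ := exists_d hrk hgen ρ hirr hunb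
  obtain ⟨G', s, hG', hrel⟩ := exists_sign hcov ρ hirr hx h1 h2 (alternatives hpert ρ hno hC l1 l2)
  obtain ⟨B, hB0, hB⟩ := exists_form hirr hG' hx h1 hrel
  have hs := form_symm hirr hG' hB
  have hdet : B.det ≠ 0 := (ker_form hirr hG' hB).resolve_left hB0
  refine ⟨G', B, hG', hs, hdet, ?_, ?_, hB⟩
  · by_contra hcon
    push Not at hcon
    apply hunb
    have hpos := pos_of_semi (B := -B) (by rw [transpose_neg, hs]) (by
      rw [det_neg, Fintype.card_fin]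
      intro h0
      apply hdet
      norm_num at h0
      exact h0) (fun x => by
      rw [neg_mulVec, dotProduct_neg]
      linarith [hcon x])
    obtain ⟨R, hR⟩ := bounded_of_pos hpos
    exact bounded_of_index hG' (R := R) fun f hf i j => hR _ (by
      rw [Matrix.mul_neg, Matrix.neg_mul, hB f hf]) i j
  · by_contra hcon
    push Not at hcon
    apply hunb
    obtain ⟨R, hR⟩ := bounded_of_pos (pos_of_semi hs hdet hcon)
    exact bounded_of_index hG' (R := R) fun f hf i j => hR _ (hB f hf) i j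

end Pool.Agent.Helper33.K3
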