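import Pool.Agent.Helper77.K3.DefsI

/-!
# The dichotomy, part A: eigenvalues
-/

set_option autoImplicit false
set_option linter.unusedVariables false

open Set Filter Topology Matrix

namespace Pool.Agent.Helper33.K3

open Pool.Agent.Helper77.K3

lemma coe_mul_inv (e : SL3) : (e : M3) * (e⁻¹ : SL3).1 = 1 := by
  rw [← Matrix.SpecialLinearGroup.coe_mul, mul_inv_cancel, Matrix.SpecialLinearGroup.coe_one]

lemma coe_inv_mul (e : SL3) : (e⁻¹ : SL3).1 * (e : M3) = 1 := by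
  rw [← Matrix.SpecialLinearGroup.coe_mul, inv_mul_cancel, Matrix.SpecialLinearGroup.coe_one]

lemma inv_mulVec_of {e : SL3} {v : E} {ν : ℝ} (hν : ν ≠ 0) (h : (e : M3) *ᵥ v = ν • v) :
    (e⁻¹ : SL3).1 *ᵥ v = ν⁻¹ • v := by
  have h1 : (e⁻¹ : SL3).1 *ᵥ ((e : M3) *ᵥ v) = v := by
    rw [mulVec_mulVec, coe_inv_mul, one_mulVec]
  rw [h, mulVec_smul] at h1
  rw [← h1, smul_smul, h1, inv_mul_cancel₀ hν, one_smul]

lemma mul_mulVec_of {e e' : SL3} {v : E} {ν ν' : ℝ} (h : (e : M3) *ᵥ v = ν • v) (h' : (e' : M3) *ᵥ v = ν' • v) :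
    ((e * e' : SL3) : M3) *ᵥ v = (ν * ν') • v := by
  rw [Matrix.SpecialLinearGroup.coe_mul, ← mulVec_mulVec, h', mulVec_smul, h, smul_smul, mul_comm]

/-- eigenvalue data -/
structure Eig (e : SL3) (v w : Fin 3 → E) (ν : Fin 3 → ℝ) : Prop where
  hv : ∀ i, (e : M3) *ᵥ v i = ν i • v i
  orth : ∀ i j, i ≠ j → w i ⬝ᵥ v j = 0
  ne : ∀ i, w i ⬝ᵥ v i ≠ 0

namespace Eig
variable {e : SL3} {v w : Fin 3 → E} {ν : Fin 3 → ℝ} (h : Eig e v w ν)

include h in
lemma v_ne (i : Fin 3) : v i ≠ 0 := by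
  intro h0
  apply h.ne i
  rw [h0, dotProduct_zero]

/-- the matrix of the eigenvectors -/
def V (v : Fin 3 → E) : M3 := Matrix.of fun i j => v j i

include h in
lemma det_V : (V v).det ≠ 0 := by
  intro h0
  have h1 : (Matrix.of w : M3) * V v = Matrix.diagonal fun i => w i ⬝ᵥ v i := by
    ext i j
    rw [Matrix.mul_apply, Matrix.diagonal_apply]
    have h2 : ∑ k, (Matrix.of w : M3) i k * V v k j = w i ⬝ᵥ v j := rfl
    rw [h2]
    by_cases hij : i = j
    · subst hij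
      rw [if_pos rfl]
    · rw [if_neg hij, h.orth i j hij]
  have h2 := congrArg Matrix.det h1
  rw [Matrix.det_mul, h0, mul_zero, Matrix.det_diagonal] at h2
  exact (Finset.prod_ne_zero_iff.2 fun i _ => h.ne i) h2.symm

include h in
lemma mul_V : (e : M3) * V v = V v * Matrix.diagonal ν := by
  ext i j
  rw [Matrix.mul_diagonal]
  have h1 := congrFun (h.hv j) i
  rw [Pi.smul_apply, smul_eq_mul] at h1
  rw [mul_comm, show V v i j = v j i from rfl, ← h1]
  rfl

include h in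
lemma prod_eq : ν 0 * ν 1 * ν 2 = 1 := by
  have h1 := congrArg Matrix.det h.mul_V
  rw [Matrix.det_mul, Matrix.det_mul, e.det_coe, one_mul, Matrix.det_diagonal, Fin.prod_univ_three] at h1
  have h2 := h.det_V
  have h3 : (V v).det * (ν 0 * ν 1 * ν 2) = (V v).det * 1 := by rw [mul_one, ← h1]
  exact mul_left_cancel₀ h2 h3

include h in
lemma ν_ne (i : Fin 3) : ν i ≠ 0 := by
  have h1 := h.prod_eq
  intro h0
  fin_cases i
  · have : ν 0 = 0 := h0
    rw [this] at h1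
    simp at h1
  · have : ν 1 = 0 := h0
    rw [this] at h1
    simp at h1
  · have : ν 2 = 0 := h0
    rw [this] at h1
    simp at h1

include h in
lemma trace_eq : (e : M3).trace = ν 0 + ν 1 + ν 2 := by
  have hu : IsUnit (V v).det := isUnit_iff_ne_zero.2 h.det_V
  have h1 : (e : M3) = V v * Matrix.diagonal ν * (V v)⁻¹ := by
    rw [← h.mul_V, Matrix.mul_assoc, Matrix.mul_nonsing_inv _ hu, Matrix.mul_one]
  rw [h1, Matrix.trace_mul_comm, ← Matrix.mul_assoc, Matrix.nonsing_inv_mul _ hu, Matrix.one_mul, Matrix.trace_diagonal,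
    Fin.sum_univ_three]

include h in
lemma inv : Eig e⁻¹ v w fun i => (ν i)⁻¹ :=
  ⟨fun i => inv_mulVec_of (h.ν_ne i) (h.hv i), h.orth, h.ne⟩

include h in
/-- squares and inverses of elements with a middle eigenvalue of absolute value not one -/
lemma sad (h21 : |ν 2| < |ν 1|) (h10 : |ν 1| < |ν 0|) (h1 : |ν 1| ≠ 1) : IsSad (e * e) ∨ IsSad (e⁻¹ * e⁻¹) := by
  have p := h.prod_eq
  have n0 := h.ν_ne 0
  have n1 := h.ν_ne 1
  have n2 := h.ν_ne 2
  have a2 : 0 < |ν 2| := abs_pos.2 n2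
  have a1 : 0 < |ν 1| := abs_pos.2 n1
  have a0 : 0 < |ν 0| := abs_pos.2 n0
  have pa : |ν 0| * |ν 1| * |ν 2| = 1 := by rw [← abs_mul, ← abs_mul, p, abs_one]
  have s : ∀ i, ν i * ν i = |ν i| * |ν i| := fun i => (abs_mul_abs_self _).symm
  rcases lt_or_gt_of_ne h1 with h1 | h1
  · left
    refine ⟨v, fun i => ν i * ν i, fun i => mul_mulVec_of (h.hv i) (h.hv i), h.v_ne, ?_, ?_, ?_, ?_⟩
    · show 0 < ν 2 * ν 2
      rw [s]
      positivity
    · show ν 2 * ν 2 < ν 1 * ν 1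
      rw [s, s]
      nlinarith
    · show ν 1 * ν 1 < 1
      rw [s]
      nlinarith
    · show 1 < ν 0 * ν 0
      rw [s]
      have h2 : |ν 1| * |ν 2| < 1 := by nlinarith
      have h3 : 1 < |ν 0| := by
        by_contra h4
        have h4 := not_lt.1 h4
        have h5 : |ν 0| * (|ν 1| * |ν 2|) < 1 := by nlinarith [mul_pos a1 a2]
        rw [← mul_assoc, pa] at h5
        exact lt_irrefl _ h5
      nlinarith
  · right
    have hi := h.inv
    refine ⟨v ∘ Fin.rev, fun i => (ν (Fin.rev i))⁻¹ * (ν (Fin.rev i))⁻¹,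
      fun i => mul_mulVec_of (hi.hv _) (hi.hv _), fun i => h.v_ne _, ?_, ?_, ?_, ?_⟩
    · show 0 < (ν 0)⁻¹ * (ν 0)⁻¹
      rw [← mul_inv, s]
      positivity
    · show (ν 0)⁻¹ * (ν 0)⁻¹ < (ν 1)⁻¹ * (ν 1)⁻¹
      rw [← mul_inv, ← mul_inv, s, s]
      refine inv_strictAnti₀ (by positivity) ?_
      nlinarith
    · show (ν 1)⁻¹ * (ν 1)⁻¹ < 1
      rw [← mul_inv, s]
      refine inv_lt_one_of_one_lt₀ ?_
      nlinarith
    · show 1 < (ν 2)⁻¹ * (ν 2)⁻¹
      rw [← mul_inv, s]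
      have h2 : 1 < |ν 0| * |ν 1| := by nlinarith
      have h3 : |ν 2| < 1 := by
        by_contra h4
        have h4 := not_lt.1 h4
        have h5 : 1 < |ν 0| * |ν 1| * |ν 2| := by nlinarith
        rw [pa] at h5
        exact lt_irrefl _ h5
      refine (one_lt_inv₀ (by positivity)).2 ?_
      nlinarith

include h in
/-- traces when the middle eigenvalue has absolute value one -/
lemma trace_alt (h1 : |ν 1| = 1) : (e : M3).trace = ((e⁻¹ : SL3) : M3).trace ∨
    (e : M3).trace + ((e⁻¹ : SL3) : M3).trace = -2 := by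
  have p := h.prod_eq
  have n0 := h.ν_ne 0
  have n2 := h.ν_ne 2
  rw [h.trace_eq, h.inv.trace_eq]
  rcases (abs_eq zero_le_one).1 h1 with h2 | h2
  · left
    rw [h2, mul_one] at p
    have h3 : (ν 0)⁻¹ = ν 2 := inv_eq_of_mul_eq_one_right p
    have h4 : (ν 2)⁻¹ = ν 0 := by rw [← h3, inv_inv]
    rw [h2, h3, h4]
    ring
  · right
    rw [h2] at p
    have h3 : (ν 0)⁻¹ = -ν 2 := by
      field_simp
      linarith
    have h4 : (ν 2)⁻¹ = -ν 0 := by
      field_simp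
      linarith
    rw [h2, h3, h4]
    norm_num
    ring

end Eig

end Pool.Agent.Helper33.K3
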