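import Pool.Agent.Helper33.K3.dichA

/-!
# The dichotomy, part B: the sequence `d n`
-/

set_option autoImplicit false
set_option linter.unusedVariables false

open Set Filter Topology Matrix

namespace Pool.Agent.Helper33.K3

open Pool.Agent.Helper77.K3

/-- a row vector as a linear functional -/
def ell (φ : E) : E →ₗ[ℝ] ℝ where
  toFun x := φ ⬝ᵥ x
  map_add' x y := dotProduct_add _ _ _
  map_smul' c x := dotProduct_smul _ _ _

@[simp] lemma ell_apply (φ x : E) : ell φ x = φ ⬝ᵥ x := rfl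

lemma ell_ne {φ : E} (h : φ ≠ 0) : ell φ ≠ 0 := by
  intro h0
  apply h
  ext i
  have h1 : ell φ (Pi.single i 1) = 0 := by rw [h0]; rfl
  rw [ell_apply, dotProduct_single_one] at h1
  exact h1

@[simp] lemma linRep_apply {G : Type} [Group G] (ρ : G →* SL3) (f : G) (x : E) : linRep ρ f x = (ρ f : M3) *ᵥ x := rfl

/-- the sup norm of a matrix -/
noncomputable def mn (A : M3) : ℝ := ‖(fun i j => A i j : Fin 3 → Fin 3 → ℝ)‖

lemma entry_le (A : M3) (i j : Fin 3) : |A i j| ≤ mn A := by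
  refine (norm_le_pi_norm (fun j => A i j) j).trans ?_
  exact norm_le_pi_norm (fun i j => A i j : Fin 3 → Fin 3 → ℝ) i

lemma half_le_mn (e : SL3) : 1 / 2 ≤ mn (e : M3) := by
  by_contra h
  have h := not_le.1 h
  have h1 := Matrix.det_le (A := (e : M3)) (abv := (AbsoluteValue.abs : AbsoluteValue ℝ ℝ)) (x := 1 / 2)
    (fun i j => (entry_le (e : M3) i j).trans h.le)
  rw [e.det_coe] at h1
  norm_num [Nat.factorial] at h1

lemma exists_seq_unbounded {G : Type} [Group G] (ρ : G →* SL3) (hunb : ¬ ∃ R : ℝ, ∀ f i j, |(ρ f : M3) i j| ≤ R) :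
    ∃ F : ℕ → G, Tendsto (fun n => ‖fun i j => (ρ (F n) : M3) i j‖) atTop atTop := by
  have h1 : ∀ n : ℕ, ∃ f : G, (n : ℝ) < mn (ρ f : M3) := by
    intro n
    by_contra h
    apply hunb
    refine ⟨n, fun f i j => (entry_le _ i j).trans ?_⟩
    exact not_lt.1 fun h2 => h ⟨f, h2⟩
  choose F hF using h1
  refine ⟨F, tendsto_atTop_mono (fun n => (hF n).le) tendsto_natCast_atTop_atTop⟩

lemma exists_seq_rank_one (hrk : S_rk1) {G : Type} [Group G] (ρ : G →* SL3)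
    (hunb : ¬ ∃ R : ℝ, ∀ f i j, |(ρ f : M3) i j| ≤ R) :
    ∃ (F : ℕ → G) (c : ℕ → ℝ) (x φ : E), Tendsto c atTop atTop ∧ x ≠ 0 ∧ φ ≠ 0 ∧
      Tendsto (fun n => (c n)⁻¹ • (ρ (F n) : M3)) atTop (𝓝 (vecMulVec x φ)) := by
  obtain ⟨F, hF⟩ := exists_seq_unbounded ρ hunb
  obtain ⟨k, c, x, φ, -, hc, hx, hφ, h⟩ := hrk (fun n => ρ (F n)) hF
  rcases h with h | h
  · exact ⟨fun n => F (k n), c, x, φ, hc, hx, hφ, h⟩
  · refine ⟨fun n => (F (k n))⁻¹, c, x, φ, hc, hx, hφ, h.congr fun n => ?_⟩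
    rw [map_inv]

/-- a convergent subsequence of the normalised inverses -/
lemma exists_subseq (A : ℕ → SL3) : ∃ (k : ℕ → ℕ) (P : M3), StrictMono k ∧ P ≠ 0 ∧
    Tendsto (fun n => (mn (A (k n) : M3))⁻¹ • (A (k n) : M3)) atTop (𝓝 P) := by
  let u : ℕ → (Fin 3 → Fin 3 → ℝ) := fun n => (mn (A n : M3))⁻¹ • (fun i j => (A n : M3) i j)
  have hu : ∀ n, u n ∈ Metric.sphere (0 : Fin 3 → Fin 3 → ℝ) 1 := by
    intro n
    have hp : 0 < mn (A n : M3) := lt_of_lt_of_le (by norm_num) (half_le_mn (A n))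
    rw [mem_sphere_zero_iff_norm, norm_smul, norm_inv, Real.norm_eq_abs, abs_of_pos hp]
    exact inv_mul_cancel₀ hp.ne'
  obtain ⟨P, hP, k, hk, hlim⟩ := (isCompact_sphere (0 : Fin 3 → Fin 3 → ℝ) 1).tendsto_subseq hu
  refine ⟨k, P, hk, ?_, hlim⟩
  intro h0
  rw [mem_sphere_zero_iff_norm] at hP
  have : (P : Fin 3 → Fin 3 → ℝ) = 0 := h0
  rw [this, norm_zero] at hP
  exact zero_ne_one hP

/-- (0.1): the sequence `d n` -/
lemma exists_d (hrk : S_rk1) (hgen : S_gen) {G : Type} [Group G] (ρ : G →* SL3) (hirr : StrIrr (linRep ρ))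
    (hunb : ¬ ∃ R : ℝ, ∀ f i j, |(ρ f : M3) i j| ≤ R) :
    ∃ (d : ℕ → G) (C : ℕ → ℝ) (x φ₁ φ₂ : E), Tendsto C atTop atTop ∧ x ≠ 0 ∧ φ₁ ≠ 0 ∧ φ₂ ≠ 0 ∧
      Tendsto (fun n => (C n)⁻¹ • (ρ (d n) : M3)) atTop (𝓝 (vecMulVec x φ₁)) ∧
      Tendsto (fun n => (C n)⁻¹ • (ρ (d n)⁻¹ : M3)) atTop (𝓝 (vecMulVec x φ₂)) := by
  obtain ⟨F, c, x, φ, hc, hx, hφ, hF⟩ := exists_seq_rank_one hrk ρ hunb
  obtain ⟨k, P, hk, hP, hlim⟩ := exists_subseq fun n => ρ (F n)⁻¹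
  -- a nonzero vector in the image of `P`
  obtain ⟨z, hz⟩ : ∃ z : E, P *ᵥ z ≠ 0 := by
    by_contra h
    push Not at h
    apply hP
    ext i j
    have h1 := congrFun (h (Pi.single j 1)) i
    rw [mulVec_single_one] at h1
    exact h1
  obtain ⟨f, hf1, hf2⟩ := hgen G E (linRep ρ) hirr Unit Unit (fun _ => ell φ) (fun _ => P *ᵥ z) (fun _ => ell φ)
    (fun _ => P *ᵥ z) (fun _ => ell_ne hφ) (fun _ => hz) (fun _ => ell_ne hφ) (fun _ => hz)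
  have hf1' : φ ⬝ᵥ ((ρ f : M3) *ᵥ (P *ᵥ z)) ≠ 0 := hf1 ()
  have hf2' : φ ⬝ᵥ ((ρ f⁻¹ : M3) *ᵥ (P *ᵥ z)) ≠ 0 := hf2 ()
  have hFk := hF.comp hk.tendsto_atTop
  have hck := hc.comp hk.tendsto_atTop
  have key : ∀ f : G, Tendsto (fun n => (c (k n) * mn (ρ (F (k n))⁻¹ : M3))⁻¹ •
      ((ρ (F (k n) * f * (F (k n))⁻¹) : SL3) : M3)) atTop (𝓝 (vecMulVec x ((φ ᵥ* (ρ f : M3)) ᵥ* P))) := by
    intro f
    have h1 := (hFk.mul (tendsto_const_nhds (x := (ρ f : M3)))).mul hlim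
    rw [vecMulVec_mul, vecMulVec_mul] at h1
    refine h1.congr fun n => ?_
    rw [map_mul, map_mul, Matrix.SpecialLinearGroup.coe_mul, Matrix.SpecialLinearGroup.coe_mul, Function.comp_apply,
      smul_mul_assoc, smul_mul_assoc, mul_smul_comm, smul_smul, mul_inv]
  refine ⟨fun n => F (k n) * f * (F (k n))⁻¹, fun n => c (k n) * mn (ρ (F (k n))⁻¹ : M3), x,
    (φ ᵥ* (ρ f : M3)) ᵥ* P, (φ ᵥ* (ρ f⁻¹ : M3)) ᵥ* P, ?_, hx, ?_, ?_, key f, ?_⟩
  · have h1 : Tendsto (fun n => (1 / 2 : ℝ) * c (k n)) atTop atTop :=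
      hck.const_mul_atTop (by norm_num)
    refine tendsto_atTop_mono' _ ?_ h1
    filter_upwards [hck.eventually_ge_atTop 0] with n hn
    have hn' : 0 ≤ c (k n) := hn
    nlinarith [half_le_mn (ρ (F (k n))⁻¹)]
  · intro h0
    apply hf1'
    rw [dotProduct_mulVec, dotProduct_mulVec, h0, zero_dotProduct]
  · intro h0
    apply hf2'
    rw [dotProduct_mulVec, dotProduct_mulVec, h0, zero_dotProduct]
  · refine (key f⁻¹).congr fun n => ?_
    have h2 : F (k n) * f⁻¹ * (F (k n))⁻¹ = (F (k n) * f * (F (k n))⁻¹)⁻¹ := by group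
    rw [h2]

/-- (0.2), (0.3): the alternatives when no element is a saddle -/
lemma alternatives (hpert : S_pert) {G : Type} [Group G] (ρ : G →* SL3) (hno : ¬ ∃ f : G, IsSad (ρ f))
    {d : ℕ → G} {C : ℕ → ℝ} {x φ₁ φ₂ : E} (hC : Tendsto C atTop atTop)
    (h1 : Tendsto (fun n => (C n)⁻¹ • (ρ (d n) : M3)) atTop (𝓝 (vecMulVec x φ₁)))
    (h2 : Tendsto (fun n => (C n)⁻¹ • (ρ (d n)⁻¹ : M3)) atTop (𝓝 (vecMulVec x φ₂))) (f : G) :
    φ₁ ⬝ᵥ ((ρ f : M3) *ᵥ x) = 0 ∨ φ₂ ⬝ᵥ ((ρ f⁻¹ : M3) *ᵥ x) = 0 ∨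
      φ₁ ⬝ᵥ ((ρ f : M3) *ᵥ x) = φ₂ ⬝ᵥ ((ρ f⁻¹ : M3) *ᵥ x) ∨
      φ₁ ⬝ᵥ ((ρ f : M3) *ᵥ x) = -(φ₂ ⬝ᵥ ((ρ f⁻¹ : M3) *ᵥ x)) := by
  by_cases ha : φ₁ ⬝ᵥ ((ρ f : M3) *ᵥ x) = 0
  · exact Or.inl ha
  by_cases hb : φ₂ ⬝ᵥ ((ρ f⁻¹ : M3) *ᵥ x) = 0
  · exact Or.inr (Or.inl hb)
  right; right
  have l1 : Tendsto (fun n => (C n)⁻¹ • ((ρ (d n * f) : SL3) : M3)) atTop
      (𝓝 (vecMulVec x (φ₁ ᵥ* (ρ f : M3)))) := by
    have := h1.mul (tendsto_const_nhds (x := (ρ f : M3)))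
    rw [vecMulVec_mul] at this
    refine this.congr fun n => ?_
    rw [map_mul, Matrix.SpecialLinearGroup.coe_mul, smul_mul_assoc]
  have l2 : Tendsto (fun n => (C n)⁻¹ • (((ρ (d n * f))⁻¹ : SL3) : M3)) atTop
      (𝓝 (vecMulVec ((ρ f⁻¹ : M3) *ᵥ x) φ₂)) := by
    have := (tendsto_const_nhds (x := (ρ f⁻¹ : M3))).mul h2
    rw [mul_vecMulVec] at this
    refine this.congr fun n => ?_
    rw [← map_inv, _root_.mul_inv_rev, map_mul, Matrix.SpecialLinearGroup.coe_mul, mul_smul_comm]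
  have hp := hpert (fun n => ρ (d n * f)) C C x (φ₁ ᵥ* (ρ f : M3)) ((ρ f⁻¹ : M3) *ᵥ x) φ₂ hC hC l1 l2
    (by rw [← dotProduct_mulVec]; exact ha) hb 1 one_pos
  -- traces
  have htr : ∀ᶠ n in atTop, ((ρ (d n * f) : SL3) : M3).trace = (((ρ (d n * f))⁻¹ : SL3) : M3).trace ∨
      ((ρ (d n * f) : SL3) : M3).trace + (((ρ (d n * f))⁻¹ : SL3) : M3).trace = -2 := by
    filter_upwards [hp] with n hn
    obtain ⟨v, w, ν, hv, hw, a21, a10, a2, ho, hne, -⟩ := hn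
    have hE : Eig (ρ (d n * f)) v w ν := ⟨hv, ho, hne⟩
    refine hE.trace_alt ?_
    by_contra hne1
    rcases hE.sad a21 a10 hne1 with h3 | h3
    · exact hno ⟨(d n * f) * (d n * f), by rw [map_mul]; exact h3⟩
    · exact hno ⟨(d n * f)⁻¹ * (d n * f)⁻¹, by rw [map_mul, map_inv]; exact h3⟩
  have t1 : Tendsto (fun n => (C n)⁻¹ * ((ρ (d n * f) : SL3) : M3).trace) atTop (𝓝 (φ₁ ⬝ᵥ ((ρ f : M3) *ᵥ x))) := by
    have := (Continuous.matrix_trace continuous_id).continuousAt.tendsto.comp l1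
    rw [dotProduct_mulVec, dotProduct_comm, ← trace_vecMulVec]
    refine this.congr fun n => ?_
    rw [Function.comp_apply, id, trace_smul, smul_eq_mul]
  have t2 : Tendsto (fun n => (C n)⁻¹ * (((ρ (d n * f))⁻¹ : SL3) : M3).trace) atTop
      (𝓝 (φ₂ ⬝ᵥ ((ρ f⁻¹ : M3) *ᵥ x))) := by
    have := (Continuous.matrix_trace continuous_id).continuousAt.tendsto.comp l2
    rw [dotProduct_comm, ← trace_vecMulVec]
    refine this.congr fun n => ?_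
    rw [Function.comp_apply, id, trace_smul, smul_eq_mul]
  have hC0 : Tendsto (fun n => (C n)⁻¹) atTop (𝓝 0) := tendsto_inv_atTop_zero.comp hC
  by_cases hfr : ∃ᶠ n in atTop, ((ρ (d n * f) : SL3) : M3).trace = (((ρ (d n * f))⁻¹ : SL3) : M3).trace
  · left
    obtain ⟨k, hk, hk'⟩ := extraction_of_frequently_atTop hfr
    refine tendsto_nhds_unique (t1.comp hk.tendsto_atTop) ((t2.comp hk.tendsto_atTop).congr fun n => ?_)
    rw [Function.comp_apply, Function.comp_apply, hk' n]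
  · right
    have hev : ∀ᶠ n in atTop, ((ρ (d n * f) : SL3) : M3).trace + (((ρ (d n * f))⁻¹ : SL3) : M3).trace = -2 := by
      filter_upwards [htr, not_frequently.1 hfr] with n hn hn'
      exact hn.resolve_left hn'
    have t3 := (t1.add t2).congr' (f₂ := fun n => (C n)⁻¹ * (-2)) (by
      filter_upwards [hev] with n hn
      rw [← mul_add, hn])
    have t4 := hC0.mul_const (-2 : ℝ)
    rw [zero_mul] at t4
    have := tendsto_nhds_unique t3 t4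
    linarith

end Pool.Agent.Helper33.K3
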