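import Pool.Agent.Helper77.K3.DefsI
import Pool.Agent.Helper33.K3.coord

/-!
# The half plane relation (Section 1)
-/

set_option autoImplicit false
set_option linter.unusedVariables false

open Set Filter Topology

namespace Pool.Agent.Helper33.K3

open Pool.Agent.Helper77.K3

section pow
variable {g : Aff3} {ν : Fin 3 → ℝ}

lemma lin_one (i j : Fin 3) : lin 1 i j = if i = j then 1 else 0 := by
  have h := congrFun (congrFun mat_one i) j
  rw [Matrix.one_apply] at h
  exact h

lemma tr_one (i : Fin 3) : tr 1 i = 0 := rfl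

lemma lin_pow (hg : ∀ i j, lin g i j = if i = j then ν i else 0) (n : ℕ) (i j : Fin 3) :
    lin (g ^ n) i j = if i = j then ν i ^ n else 0 := by
  induction n generalizing i j with
  | zero => rw [pow_zero, lin_one]; simp
  | succ n ih =>
    rw [pow_succ', lin_mul, hg, hg, hg, ih, ih, ih]
    fin_cases i <;> fin_cases j <;> simp [pow_succ']

lemma tr_pow (hg : ∀ i j, lin g i j = if i = j then ν i else 0) (hg' : ∀ i, tr g i = 0) (n : ℕ) (i : Fin 3) :
    tr (g ^ n) i = 0 := by
  induction n generalizing i with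
  | zero => rw [pow_zero, tr_one]
  | succ n ih =>
    rw [pow_succ', tr_mul, ih, ih, ih, hg']
    simp

lemma pow_apply (hg : ∀ i j, lin g i j = if i = j then ν i else 0) (hg' : ∀ i, tr g i = 0) (n : ℕ) (x : E)
    (i : Fin 3) : (g ^ n) x i = ν i ^ n * x i := by
  rw [apply_coord, lin_pow hg, lin_pow hg, lin_pow hg, tr_pow hg hg']
  fin_cases i <;> simp

/-- the conjugates `g ^ n * f * (g ^ n)⁻¹` -/
lemma conj_apply (hg : ∀ i j, lin g i j = if i = j then ν i else 0) (hg' : ∀ i, tr g i = 0) (hν : ∀ i, ν i ≠ 0)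
    (f : Aff3) (n : ℕ) (x : E) (i : Fin 3) :
    (g ^ n * f * (g ^ n)⁻¹) x i =
      ν i ^ n * (lin f i 0 * (x 0 / ν 0 ^ n) + lin f i 1 * (x 1 / ν 1 ^ n) + lin f i 2 * (x 2 / ν 2 ^ n) + tr f i) := by
  have h1 : (g ^ n) (fun j => x j / ν j ^ n) = x := by
    ext j
    rw [pow_apply hg hg', mul_div_cancel₀ _ (pow_ne_zero n (hν j))]
  have h2 : (g ^ n)⁻¹ x = fun j => x j / ν j ^ n := by
    conv_lhs => rw [← h1]
    exact AffineEquiv.symm_apply_apply (g ^ n) _
  have h3 : (g ^ n * f * (g ^ n)⁻¹) x = (g ^ n) (f ((g ^ n)⁻¹ x)) := rfl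
  rw [h3, h2, pow_apply hg hg', apply_coord]

lemma lin_conj (hg : ∀ i j, lin g i j = if i = j then ν i else 0) (hν : ∀ i, ν i ≠ 0) (f : Aff3) (n : ℕ)
    (i j : Fin 3) : lin (g ^ n * f * (g ^ n)⁻¹) i j = ν i ^ n * lin f i j / ν j ^ n := by
  have h1 : (g ^ n * f * (g ^ n)⁻¹) * g ^ n = g ^ n * f := by group
  generalize g ^ n * f * (g ^ n)⁻¹ = A at h1 ⊢
  have h2 : lin (A * g ^ n) i j = lin (g ^ n * f) i j := by rw [h1]
  rw [lin_mul, lin_mul, lin_pow hg, lin_pow hg, lin_pow hg, lin_pow hg, lin_pow hg, lin_pow hg] at h2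
  rw [eq_div_iff (pow_ne_zero n (hν j))]
  fin_cases i <;> fin_cases j <;> simpa using h2

end pow

lemma tendsto_vec {x : ℕ → E} {a : E} (h0 : Tendsto (fun n => x n 0) atTop (𝓝 (a 0)))
    (h1 : Tendsto (fun n => x n 1) atTop (𝓝 (a 1))) (h2 : Tendsto (fun n => x n 2) atTop (𝓝 (a 2))) :
    Tendsto x atTop (𝓝 a) := by
  rw [tendsto_pi_nhds]
  intro i
  fin_cases i
  · exact h0
  · exact h1
  · exact h2

/-- the entry of the inverse matrix -/
lemma inv_entry {f : Aff3} (h : (mat f).det = 1) : lin f⁻¹ 0 2 = lin f 0 1 * lin f 1 2 - lin f 0 2 * lin f 1 1 := by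
  have h1 : lin f⁻¹ 0 2 = (mat f)⁻¹ 0 2 := by rw [← mat_inv]; rfl
  rw [h1, Matrix.inv_def, h, Ring.inverse_one, one_smul, Matrix.adjugate_fin_three]
  rfl

theorem half (hP1 : S_P1) (hF2 : S_F2) (hK : S_K) (hcof : S_cof) : S_half := by
  intro D g ν hdet hgΓ hg
  obtain ⟨hg1, hg2, h2pos, h21, h11, h01⟩ := hg
  have h1pos : 0 < ν 1 := h2pos.trans h21
  have h0pos : 0 < ν 0 := one_pos.trans h01
  have hν : ∀ i, ν i ≠ 0 := by
    intro i
    fin_cases i
    · exact h0pos.ne'
    · exact h1pos.ne'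
    · exact h2pos.ne'
  have hpow : ∀ n, g ^ n ∈ D.Γ := fun n => D.Γ.pow_mem hgΓ n
  -- limits of powers
  have t1 : Tendsto (fun n : ℕ => ν 1 ^ n) atTop (𝓝 0) := tendsto_pow_atTop_nhds_zero_of_lt_one h1pos.le h11
  have t2 : Tendsto (fun n : ℕ => ν 2 ^ n) atTop (𝓝 0) :=
    tendsto_pow_atTop_nhds_zero_of_lt_one h2pos.le (h21.trans h11)
  have t20 : Tendsto (fun n : ℕ => (ν 2 / ν 0) ^ n) atTop (𝓝 0) :=
    tendsto_pow_atTop_nhds_zero_of_lt_one (div_pos h2pos h0pos).le
      ((div_lt_one h0pos).2 (h21.trans (h11.trans h01)))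
  have t21 : Tendsto (fun n : ℕ => (ν 2 / ν 1) ^ n) atTop (𝓝 0) :=
    tendsto_pow_atTop_nhds_zero_of_lt_one (div_pos h2pos h1pos).le ((div_lt_one h1pos).2 h21)
  have t10 : Tendsto (fun n : ℕ => (ν 1 / ν 0) ^ n) atTop (𝓝 0) :=
    tendsto_pow_atTop_nhds_zero_of_lt_one (div_pos h1pos h0pos).le ((div_lt_one h0pos).2 (h11.trans h01))
  have ti0 : Tendsto (fun n : ℕ => (ν 0)⁻¹ ^ n) atTop (𝓝 0) :=
    tendsto_pow_atTop_nhds_zero_of_lt_one (inv_pos.2 h0pos).le (inv_lt_one_of_one_lt₀ h01)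
  have T0 : Tendsto (fun n : ℕ => ν 0 ^ n) atTop atTop := tendsto_pow_atTop_atTop_of_one_lt h01
  have T02 : Tendsto (fun n : ℕ => (ν 0 / ν 2) ^ n) atTop atTop :=
    tendsto_pow_atTop_atTop_of_one_lt ((one_lt_div h2pos).2 (h21.trans (h11.trans h01)))
  -- the line through the origin
  have hgcof : Tendsto (fun n => g ^ n) atTop cofinite := by
    refine hcof.1 _ ⟨0, 0, ?_⟩
    refine (tendsto_abs_atTop_atTop.comp T0).congr fun n => ?_
    rw [Function.comp_apply, lin_pow hg1, if_pos rfl]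
  have hline : ∀ t : ℝ, (![t, 0, 0] : E) ∈ D.K := by
    intro β
    by_contra hβ
    obtain ⟨x, hx, hx0⟩ := hF2 D ![1, 0, 0] 0 (by
      intro h
      have := congrFun h 0
      simp at this)
    have hx0' : x 0 = 0 := by
      simpa using hx0
    have h1 := hP1 D (fun n => g ^ n) (fun n => ![(ν 0)⁻¹ ^ n * β, x 1, x 2]) x ![β, 0, 0] hpow hgcof
      (tendsto_vec (by
          rw [hx0']
          simpa using ti0.mul_const β) (by simp) (by simp))
      (tendsto_vec (by
          refine tendsto_const_nhds.congr fun n => ?_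
          rw [pow_apply hg1 hg2]
          show β = ν 0 ^ n * ((ν 0)⁻¹ ^ n * β)
          rw [← mul_assoc, ← mul_pow, mul_inv_cancel₀ h0pos.ne', one_pow, one_mul])
        (by
          have := t1.mul_const (x 1)
          rw [zero_mul] at this
          refine this.congr fun n => ?_
          rw [pow_apply hg1 hg2]
          rfl)
        (by
          have := t2.mul_const (x 2)
          rw [zero_mul] at this
          refine this.congr fun n => ?_
          rw [pow_apply hg1 hg2]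
          rfl))
    rcases h1 with h1 | h1
    · exact h1 hx
    · exact hβ h1
  refine ⟨_, rfl, ?_, hline, ?_, ?_, ?_⟩
  · -- closed
    have h1 : {s : ℝ | ∀ t : ℝ, (![t, s, 0] : E) ∈ D.K} = ⋂ t : ℝ, (fun s : ℝ => (![t, s, 0] : E)) ⁻¹' D.K := by
      ext s
      simp
    rw [h1]
    refine isClosed_iInter fun t => (hK D).1.preimage ?_
    refine continuous_pi fun i => ?_
    fin_cases i
    · exact continuous_const
    · exact continuous_id
    · exact continuous_const
  · -- not everything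
    intro h
    obtain ⟨x, hx, hx0⟩ := hF2 D ![0, 0, 1] 0 (by
      intro h
      have := congrFun h 2
      simp at this)
    have hx2 : x 2 = 0 := by simpa using hx0
    have h1 : x 1 ∈ {s : ℝ | ∀ t : ℝ, (![t, s, 0] : E) ∈ D.K} := by
      rw [h]
      trivial
    have h2 := h1 (x 0)
    have h3 : (![x 0, x 1, 0] : E) = x := by
      ext i
      fin_cases i
      · rfl
      · rfl
      · exact hx2.symm
    rw [h3] at h2
    exact h2 hx
  · -- invariance
    intro s
    have h1 : ∀ t s : ℝ, g ![t, s, 0] = ![ν 0 * t, ν 1 * s, 0] := by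
      intro t s
      ext i
      rw [apply_coord, hg1, hg1, hg1, hg2]
      fin_cases i <;> simp
    constructor
    · intro h t
      have h2 := h (ν 0 * t)
      rw [← h1] at h2
      exact ((hK D).2 g hgΓ _).1 h2
    · intro h t
      have h2 := h (t / ν 0)
      have h3 := ((hK D).2 g hgΓ _).2 h2
      rw [h1, mul_div_cancel₀ _ h0pos.ne'] at h3
      exact h3
  · -- the relation
    intro f hf hf02 s
    by_cases hs : ∀ t : ℝ, (![t, s, 0] : E) ∈ D.K
    · exact Or.inl hs
    refine Or.inr fun y => ?_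
    obtain ⟨t, ht⟩ := not_forall.1 hs
    set z : ℕ → ℝ := fun n => (lin f 0 2)⁻¹ * ((ν 2 / ν 0) ^ n * (y - lin f 0 0 * t) - (ν 2 / ν 1) ^ n * (lin f 0 1 * s) -
      ν 2 ^ n * tr f 0) with hz
    have hzt : Tendsto z atTop (𝓝 0) := by
      have h1 := ((t20.mul_const (y - lin f 0 0 * t)).sub (t21.mul_const (lin f 0 1 * s))).sub (t2.mul_const (tr f 0))
      have h2 := h1.const_mul (lin f 0 2)⁻¹
      rw [zero_mul, zero_mul, zero_mul, sub_zero, sub_zero, mul_zero] at h2
      exact h2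
    have hzt1 : Tendsto (fun n => ν 1 ^ n * (z n / ν 2 ^ n)) atTop (𝓝 (-(lin f 0 1 * s) / lin f 0 2)) := by
      have h1 := ((t10.mul_const (y - lin f 0 0 * t)).sub (tendsto_const_nhds (x := lin f 0 1 * s))).sub
        (t1.mul_const (tr f 0))
      have h2 := h1.const_mul (lin f 0 2)⁻¹
      rw [zero_mul, zero_mul, zero_sub, sub_zero] at h2
      rw [div_eq_inv_mul]
      refine h2.congr fun n => ?_
      rw [hz]
      have e0 : ν 0 ^ n ≠ 0 := pow_ne_zero n h0pos.ne'
      have e1 : ν 1 ^ n ≠ 0 := pow_ne_zero n h1pos.ne'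
      have e2 : ν 2 ^ n ≠ 0 := pow_ne_zero n h2pos.ne'
      simp only [div_pow]
      field_simp
    have hcofγ : Tendsto (fun n => g ^ n * f * (g ^ n)⁻¹) atTop cofinite := by
      refine hcof.1 _ ⟨0, 2, ?_⟩
      have h1 := T02.atTop_mul_const (abs_pos.2 hf02)
      refine h1.congr fun n => ?_
      rw [lin_conj hg1 hν, abs_div, abs_mul, abs_of_pos (pow_pos h0pos n), abs_of_pos (pow_pos h2pos n), div_pow]
      ring
    have h1 := hP1 D (fun n => g ^ n * f * (g ^ n)⁻¹) (fun n => ![t, s, z n]) ![t, s, 0]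
      ![y, (-(lin f⁻¹ 0 2) / lin f 0 2) * s, 0]
      (fun n => D.Γ.mul_mem (D.Γ.mul_mem (hpow n) hf) (D.Γ.inv_mem (hpow n))) hcofγ
      (tendsto_vec (by simp) (by simp) (by simpa using hzt))
      (tendsto_vec (by
          refine tendsto_const_nhds.congr fun n => ?_
          rw [conj_apply hg1 hg2 hν]
          show y = ν 0 ^ n * (lin f 0 0 * (t / ν 0 ^ n) + lin f 0 1 * (s / ν 1 ^ n) + lin f 0 2 * (z n / ν 2 ^ n) + tr f 0)
          rw [hz]
          have e0 : ν 0 ^ n ≠ 0 := pow_ne_zero n h0pos.ne'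
          have e1 : ν 1 ^ n ≠ 0 := pow_ne_zero n h1pos.ne'
          have e2 : ν 2 ^ n ≠ 0 := pow_ne_zero n h2pos.ne'
          simp only [div_pow]
          field_simp
          ring)
        (by
          have h3 := ((t10.mul_const (lin f 1 0 * t)).add (tendsto_const_nhds (x := lin f 1 1 * s))).add
            ((hzt1.const_mul (lin f 1 2)).add (t1.mul_const (tr f 1)))
          rw [zero_mul, zero_mul, zero_add, add_zero] at h3
          have h4 : lin f 1 1 * s + lin f 1 2 * (-(lin f 0 1 * s) / lin f 0 2) =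
              (![y, (-(lin f⁻¹ 0 2) / lin f 0 2) * s, 0] : E) 1 := by
            show _ = (-(lin f⁻¹ 0 2) / lin f 0 2) * s
            rw [inv_entry (hdet f hf)]
            field_simp
            ring
          rw [h4] at h3
          refine h3.congr fun n => ?_
          rw [conj_apply hg1 hg2 hν]
          show _ = ν 1 ^ n * (lin f 1 0 * (t / ν 0 ^ n) + lin f 1 1 * (s / ν 1 ^ n) + lin f 1 2 * (z n / ν 2 ^ n) + tr f 1)
          have e0 : ν 0 ^ n ≠ 0 := pow_ne_zero n h0pos.ne'
          have e1 : ν 1 ^ n ≠ 0 := pow_ne_zero n h1pos.ne'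
          have e2 : ν 2 ^ n ≠ 0 := pow_ne_zero n h2pos.ne'
          simp only [div_pow]
          field_simp
          ring)
        (by
          have h3 := ((t20.mul_const (lin f 2 0 * t)).add (t21.mul_const (lin f 2 1 * s))).add
            ((hzt.const_mul (lin f 2 2)).add (t2.mul_const (tr f 2)))
          rw [zero_mul, zero_mul, zero_mul, mul_zero, zero_add, add_zero] at h3
          refine h3.congr fun n => ?_
          rw [conj_apply hg1 hg2 hν]
          show _ = ν 2 ^ n * (lin f 2 0 * (t / ν 0 ^ n) + lin f 2 1 * (s / ν 1 ^ n) + lin f 2 2 * (z n / ν 2 ^ n) + tr f 2)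
          have e0 : ν 0 ^ n ≠ 0 := pow_ne_zero n h0pos.ne'
          have e1 : ν 1 ^ n ≠ 0 := pow_ne_zero n h1pos.ne'
          have e2 : ν 2 ^ n ≠ 0 := pow_ne_zero n h2pos.ne'
          simp only [div_pow]
          field_simp
          ring))
    rcases h1 with h1 | h1
    · exact absurd h1 ht
    · exact h1

end Pool.Agent.Helper33.K3
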