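import Pool.Agent.Helper77.K3.Defs

/-!
# Lifting of circle valued maps
-/

set_option autoImplicit false

open Set Filter Topology

namespace Pool.Agent.Helper33.K3

open Pool.Agent.Helper77.K3

/-- circle valued maps on `ℝ³` lift to real valued ones -/
theorem lift : S_lift := by
  intro u R hu h1 _
  have hmem : ∀ x, u x ∈ Submonoid.unitSphere ℂ := fun x => by
    show u x ∈ Metric.sphere (0 : ℂ) 1
    rw [mem_sphere_zero_iff_norm]
    exact h1 x
  let f : C(E, Circle) := ⟨fun x => ⟨u x, hmem x⟩, hu.subtype_mk hmem⟩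
  obtain ⟨t, ht⟩ : ∃ t : ℝ, Circle.exp t = f 0 := ⟨_, Circle.exp_arg (f 0)⟩
  obtain ⟨w, hw, -⟩ := Circle.isCoveringMap_exp.existsUnique_continuousMap_lifts f (0 : E) t ht
  refine ⟨w, w.continuous, fun x => ?_⟩
  have h2 : Circle.exp (w x) = f x := congrFun hw.2 x
  have h3 := congrArg (fun z : Circle => (z : ℂ)) h2
  rw [← Circle.coe_exp]
  exact h3

end Pool.Agent.Helper33.K3
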